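import Mathlib

/-!
An irreducible real hyperplane arrangement of rank `4` with `n = 6` hyperplanes whose tope graph is
not vertex-transitive, but such that `Φ₆` does not divide the denominator of its magnitude.
-/

set_option autoImplicit false

open Polynomial Matrix

namespace Pool.Agent.Results.MP_04f01b_co.HouseArrangement

section Definitions

variable {d n : ℕ} (H : Fin n → Fin d → ℝ)

/-- `H` is a list of normal vectors of `n` distinct linear hyperplanes of `ℝ^d`. -/
def IsArrangement : Prop :=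
  (∀ i, H i ≠ 0) ∧ ∀ i j, i ≠ j → {x : Fin d → ℝ | H i ⬝ᵥ x = 0} ≠ {x : Fin d → ℝ | H j ⬝ᵥ x = 0}

/-- The intersection of all hyperplanes. -/
def center : Submodule ℝ (Fin d → ℝ) where
  carrier := {x | ∀ i, H i ⬝ᵥ x = 0}
  add_mem' := by
    intro a b ha hb i
    rw [dotProduct_add, ha i, hb i, add_zero]
  zero_mem' := by
    intro i
    rw [dotProduct_zero]
  smul_mem' := by
    intro c x hx i
    rw [dotProduct_smul, hx i, smul_zero]

/-- The rank of the arrangement: the codimension of the intersection of all hyperplanes. -/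
noncomputable def rank : ℕ := Module.finrank ℝ ((Fin d → ℝ) ⧸ center H)

/-- The arrangement is irreducible: it is not a product of two nonempty arrangements, that is, for
every partition of the normal vectors into two nonempty parts the spans of the two parts have a
nonzero vector in common. -/
def Irreducible : Prop :=
  ∀ S : Set (Fin n), S.Nonempty → Sᶜ.Nonempty →
    Submodule.span ℝ (H '' S) ⊓ Submodule.span ℝ (H '' Sᶜ) ≠ ⊥

/-- The complement of the union of the hyperplanes. -/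
abbrev Complement : Type := {x : Fin d → ℝ // ∀ i, H i ⬝ᵥ x ≠ 0}

/-- The chambers: the connected components of the complement. -/
def Chamber : Type := ConnectedComponents (Complement H)

variable {H}

/-- The chamber of a point of the complement. -/
def chamberOf (x : Complement H) : Chamber H := (x : ConnectedComponents (Complement H))

/-- The `i`-th hyperplane separates the chambers `C` and `C'`. -/
def Separates (i : Fin n) (C C' : Chamber H) : Prop :=
  ∃ x y : Complement H, chamberOf x = C ∧ chamberOf y = C' ∧ (H i ⬝ᵥ x.1) * (H i ⬝ᵥ y.1) < 0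

/-- The number of hyperplanes separating two chambers; this is their distance in the tope graph. -/
noncomputable def sepNumber (C C' : Chamber H) : ℕ := Nat.card {i : Fin n // Separates i C C'}

variable (H)

theorem sepNumber_comm' {C C' : Chamber H} : sepNumber C C' = sepNumber C' C := by
  unfold sepNumber
  refine Nat.card_congr (Equiv.subtypeEquivRight fun i => ?_)
  constructor
  · rintro ⟨x, y, hx, hy, hxy⟩
    exact ⟨y, x, hy, hx, by rwa [mul_comm]⟩
  · rintro ⟨x, y, hx, hy, hxy⟩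
    exact ⟨y, x, hy, hx, by rwa [mul_comm]⟩

/-- The tope graph. -/
def topeGraph : SimpleGraph (Chamber H) where
  Adj C C' := C ≠ C' ∧ sepNumber C C' = 1
  symm := ⟨fun C C' h => ⟨h.1.symm, by rw [sepNumber_comm']; exact h.2⟩⟩
  loopless := ⟨fun C h => h.1 rfl⟩

/-- A graph is vertex-transitive if its automorphism group acts transitively on its vertices. -/
def VertexTransitive {V : Type*} (G : SimpleGraph V) : Prop :=
  ∀ u v : V, ∃ φ : G ≃g G, φ u = v

variable {H}

/-- The sign vector of a point. -/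
noncomputable def sgn (x : Complement H) : Fin n → Bool := fun i => decide (0 < H i ⬝ᵥ x.1)

theorem sgn_eq_true {x : Complement H} {i : Fin n} : sgn x i = true ↔ 0 < H i ⬝ᵥ x.1 := by
  simp [sgn]

theorem sgn_eq_false {x : Complement H} {i : Fin n} : sgn x i = false ↔ H i ⬝ᵥ x.1 < 0 := by
  have h := x.2 i
  simp only [sgn, decide_eq_false_iff_not, not_lt]
  exact ⟨fun h1 => lt_of_le_of_ne h1 h, le_of_lt⟩

theorem continuous_dot (i : Fin n) : Continuous fun x : Complement H => H i ⬝ᵥ x.1 := by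
  have h1 : Continuous fun x : Complement H => (x.1 : Fin d → ℝ) := continuous_subtype_val
  exact Continuous.dotProduct continuous_const h1

theorem continuous_sgn : Continuous (sgn : Complement H → Fin n → Bool) := by
  refine continuous_pi fun i => ?_
  rw [continuous_bool_rng true]
  have h1 : (fun x : Complement H => sgn x i) ⁻¹' {true} = {x | 0 < H i ⬝ᵥ x.1} := by
    ext x
    simp [sgn]
  have h2 : (fun x : Complement H => sgn x i) ⁻¹' {true} = {x | H i ⬝ᵥ x.1 < 0}ᶜ := by
    ext x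
    simp only [Set.mem_preimage, Set.mem_singleton_iff, Set.mem_compl_iff, Set.mem_ofPred_eq]
    rw [← sgn_eq_false, Bool.not_eq_false]
  constructor
  · rw [h2]
    exact (isOpen_lt (continuous_dot i) continuous_const).isClosed_compl
  · rw [h1]
    exact isOpen_lt continuous_const (continuous_dot i)

/-- The sign vector of a chamber. -/
noncomputable def sgnC : Chamber H → Fin n → Bool := continuous_sgn.connectedComponentsLift

theorem sgnC_chamber (x : Complement H) : sgnC (chamberOf x) = sgn x :=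
  continuous_sgn.connectedComponentsLift_apply_coe x

theorem chamber_surjective (C : Chamber H) : ∃ x : Complement H, chamberOf x = C :=
  ConnectedComponents.surjective_coe C

theorem chamber_eq_of_sgn_eq {x y : Complement H} (h : sgn x = sgn y) : chamberOf x = chamberOf y := by
  have hpos : ∀ (t : unitInterval) (i : Fin n),
      H i ⬝ᵥ ((1 - (t : ℝ)) • x.1 + (t : ℝ) • y.1) ≠ 0 := by
    intro t i
    rw [dotProduct_add, dotProduct_smul, dotProduct_smul, smul_eq_mul, smul_eq_mul]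
    have ht0 := t.2.1
    have ht1 := t.2.2
    have hi := congrFun h i
    rcases lt_or_gt_of_ne (x.2 i) with hx | hx
    · have hy : H i ⬝ᵥ y.1 < 0 := by
        rw [← sgn_eq_false, ← hi, sgn_eq_false]
        exact hx
      apply ne_of_lt
      rcases eq_or_lt_of_le ht0 with h0 | h0
      · rw [← h0]
        simpa using hx
      · have h1 : (t : ℝ) * (H i ⬝ᵥ y.1) < 0 := mul_neg_of_pos_of_neg h0 hy
        have h2 : (1 - (t : ℝ)) * (H i ⬝ᵥ x.1) ≤ 0 :=
          mul_nonpos_of_nonneg_of_nonpos (by linarith) hx.le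
        linarith
    · have hy : 0 < H i ⬝ᵥ y.1 := by
        rw [← sgn_eq_true, ← hi, sgn_eq_true]
        exact hx
      apply ne_of_gt
      rcases eq_or_lt_of_le ht0 with h0 | h0
      · rw [← h0]
        simpa using hx
      · have h1 : 0 < (t : ℝ) * (H i ⬝ᵥ y.1) := mul_pos h0 hy
        have h2 : 0 ≤ (1 - (t : ℝ)) * (H i ⬝ᵥ x.1) := mul_nonneg (by linarith) hx.le
        linarith
  let f : unitInterval → Complement H := fun t => ⟨(1 - (t : ℝ)) • x.1 + (t : ℝ) • y.1, hpos t⟩
  have hf : Continuous f := by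
    refine Continuous.subtype_mk ?_ _
    fun_prop
  have hx : f 0 = x := Subtype.ext (by simp [f])
  have hy : f 1 = y := Subtype.ext (by simp [f])
  have hpre : IsPreconnected (Set.range f) := isPreconnected_range hf
  have h1 : y ∈ connectedComponent x :=
    hpre.subset_connectedComponent ⟨0, hx⟩ ⟨1, hy⟩
  exact (ConnectedComponents.coe_eq_coe.mpr (connectedComponent_eq h1))

theorem sgnC_injective : Function.Injective (sgnC : Chamber H → Fin n → Bool) := by
  intro C C' h
  obtain ⟨x, rfl⟩ := chamber_surjective C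
  obtain ⟨y, rfl⟩ := chamber_surjective C'
  rw [sgnC_chamber, sgnC_chamber] at h
  exact chamber_eq_of_sgn_eq h

noncomputable instance : Fintype (Chamber H) := Fintype.ofInjective sgnC sgnC_injective
noncomputable instance : DecidableEq (Chamber H) := Classical.decEq _

theorem separates_iff {i : Fin n} {C C' : Chamber H} : Separates i C C' ↔ sgnC C i ≠ sgnC C' i := by
  constructor
  · rintro ⟨x, y, rfl, rfl, h⟩
    rw [sgnC_chamber, sgnC_chamber]
    intro heq
    rcases mul_neg_iff.mp h with ⟨h1, h2⟩ | ⟨h1, h2⟩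
    · rw [← sgn_eq_true] at h1
      rw [← sgn_eq_false] at h2
      rw [h1, h2] at heq
      exact Bool.noConfusion heq
    · rw [← sgn_eq_false] at h1
      rw [← sgn_eq_true] at h2
      rw [h1, h2] at heq
      exact Bool.noConfusion heq
  · intro h
    obtain ⟨x, rfl⟩ := chamber_surjective C
    obtain ⟨y, rfl⟩ := chamber_surjective C'
    rw [sgnC_chamber, sgnC_chamber] at h
    refine ⟨x, y, rfl, rfl, ?_⟩
    rcases hx : sgn x i with _ | _ <;> rcases hy : sgn y i with _ | _ <;>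
      simp only [hx, hy, ne_eq, not_true_eq_false] at h
    · exact mul_neg_of_neg_of_pos (sgn_eq_false.mp hx) (sgn_eq_true.mp hy)
    · exact mul_neg_of_pos_of_neg (sgn_eq_true.mp hx) (sgn_eq_false.mp hy)

theorem sepNumber_eq (C C' : Chamber H) :
    sepNumber C C' = (Finset.univ.filter fun i => sgnC C i ≠ sgnC C' i).card := by
  unfold sepNumber
  rw [← Fintype.card_subtype, ← Nat.card_eq_fintype_card]
  exact Nat.card_congr (Equiv.subtypeEquivRight fun i => separates_iff)

variable (H)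

/-- The matrix `Z` of the tope graph with entries `q ^ d(C, C')`, over the field `ℚ(q)`. -/
noncomputable def zMatrix : Matrix (Chamber H) (Chamber H) (RatFunc ℚ) :=
  Matrix.of fun C C' => RatFunc.X ^ sepNumber C C'

/-- The magnitude of the tope graph: the sum of all entries of the inverse of `Z`. -/
noncomputable def mag : RatFunc ℚ := ∑ C, ∑ C', (zMatrix H)⁻¹ C C'

variable {H}

theorem sepNumber_self (C : Chamber H) : sepNumber C C = 0 := by
  rw [sepNumber_eq]
  simp

theorem eq_of_sepNumber_eq_zero {C C' : Chamber H} (h : sepNumber C C' = 0) : C = C' := by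
  rw [sepNumber_eq, Finset.card_eq_zero, Finset.filter_eq_empty_iff] at h
  apply sgnC_injective
  funext i
  have := h (Finset.mem_univ i)
  push Not at this
  exact this

theorem isUnit_det : IsUnit (zMatrix H).det := by
  let Zp : Matrix (Chamber H) (Chamber H) ℚ[X] := Matrix.of fun C C' => (X : ℚ[X]) ^ sepNumber C C'
  have h1 : zMatrix H = Zp.map (algebraMap ℚ[X] (RatFunc ℚ)) := by
    ext C C'
    simp [zMatrix, Zp, Matrix.map_apply]
  have h2 : (zMatrix H).det = algebraMap ℚ[X] (RatFunc ℚ) Zp.det := by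
    rw [h1, ← RingHom.mapMatrix_apply, ← RingHom.map_det]
  have h3 : Polynomial.eval 0 Zp.det = 1 := by
    have h4 : Polynomial.eval 0 Zp.det = (Polynomial.evalRingHom (0 : ℚ)) Zp.det := rfl
    rw [h4, RingHom.map_det]
    have h5 : (Polynomial.evalRingHom (0 : ℚ)).mapMatrix Zp = 1 := by
      ext C C'
      simp only [RingHom.mapMatrix_apply, Matrix.map_apply, Matrix.of_apply, Zp,
        Polynomial.coe_evalRingHom, Matrix.one_apply, Polynomial.eval_pow, Polynomial.eval_X]
      split_ifs with h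
      · rw [h, sepNumber_self, pow_zero]
      · exact zero_pow fun h0 => h (eq_of_sepNumber_eq_zero h0)
    rw [h5, Matrix.det_one]
  rw [h2, isUnit_iff_ne_zero]
  intro h
  have h6 : Zp.det = 0 := (map_eq_zero_iff _ (RatFunc.algebraMap_injective ℚ)).mp h
  rw [h6, Polynomial.eval_zero] at h3
  exact zero_ne_one h3

theorem mag_eq_sum (w : Chamber H → RatFunc ℚ)
    (hw : ∀ C, ∑ C', RatFunc.X ^ sepNumber C C' * w C' = 1) : mag H = ∑ C, w C := by
  have h1 : zMatrix H *ᵥ w = fun _ => 1 := by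
    funext C
    exact hw C
  have h2 : (zMatrix H)⁻¹ *ᵥ (fun _ => 1) = w := by
    rw [← h1, Matrix.mulVec_mulVec, Matrix.nonsing_inv_mul _ isUnit_det, Matrix.one_mulVec]
  rw [← h2]
  unfold mag
  refine Finset.sum_congr rfl fun C _ => ?_
  simp [Matrix.mulVec, dotProduct]

end Definitions

/-! ### The arrangement of the house graph -/

/-- The normal vectors `x, y, z, w, y + z, x + y + w`, with integer entries. -/
def HI : Fin 6 → Fin 4 → ℤ
  | 0 => ![1, 0, 0, 0]
  | 1 => ![0, 1, 0, 0]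
  | 2 => ![0, 0, 1, 0]
  | 3 => ![0, 0, 0, 1]
  | 4 => ![0, 1, 1, 0]
  | 5 => ![1, 1, 0, 1]

/-- The arrangement of the house graph (a triangle and a quadrilateral with a common edge). -/
noncomputable def HR : Fin 6 → Fin 4 → ℝ := fun i j => (HI i j : ℝ)

theorem dot_eq (i : Fin 6) (x : Fin 4 → ℝ) :
    HR i ⬝ᵥ x = HI i 0 * x 0 + HI i 1 * x 1 + HI i 2 * x 2 + HI i 3 * x 3 := by
  simp [dotProduct, Fin.sum_univ_four, HR]

/-- The sign vectors of the chambers. -/
def good (σ : Fin 6 → Bool) : Bool :=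
  !(σ 1 == σ 2 && σ 4 != σ 1) && !(σ 0 == σ 1 && σ 1 == σ 3 && σ 5 != σ 0)

/-- `a` with the sign given by `b`. -/
def sg (b : Bool) (a : ℤ) : ℤ := if b then a else -a

/-- A point with a given sign vector. -/
def pt (σ : Fin 6 → Bool) : Fin 4 → ℤ :=
  ![sg (σ 0) (if σ 5 = σ 0 then 20 else 1), sg (σ 1) 4, sg (σ 2) (if σ 4 = σ 2 then 8 else 2),
    sg (σ 3) (if σ 5 = σ 0 then 1 else if σ 5 = σ 3 then 20 else 1)]

theorem pt_spec : ∀ σ : Fin 6 → Bool, good σ = true → ∀ i : Fin 6,
    (σ i = true → 0 < HI i 0 * pt σ 0 + HI i 1 * pt σ 1 + HI i 2 * pt σ 2 + HI i 3 * pt σ 3) ∧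
    (σ i = false → HI i 0 * pt σ 0 + HI i 1 * pt σ 1 + HI i 2 * pt σ 2 + HI i 3 * pt σ 3 < 0) := by
  decide +kernel

theorem good_sgn (x : Complement HR) : good (sgn x) = true := by
  have h : ∀ i, (sgn x i = true ∧ 0 < HR i ⬝ᵥ x.1) ∨ (sgn x i = false ∧ HR i ⬝ᵥ x.1 < 0) := by
    intro i
    rcases hi : sgn x i with _ | _
    · exact Or.inr ⟨rfl, sgn_eq_false.mp hi⟩
    · exact Or.inl ⟨rfl, sgn_eq_true.mp hi⟩
  have h0 := h 0
  have h1 := h 1
  have h2 := h 2
  have h3 := h 3
  have h4 := h 4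
  have h5 := h 5
  simp [dot_eq, HI] at h0 h1 h2 h3 h4 h5
  unfold good
  have hA : ¬ ((sgn x 1 = sgn x 2) ∧ sgn x 4 ≠ sgn x 1) := by
    rintro ⟨ha, hb⟩
    rcases h1 with ⟨a1, b1⟩ | ⟨a1, b1⟩ <;> rcases h2 with ⟨a2, b2⟩ | ⟨a2, b2⟩ <;>
      rcases h4 with ⟨a4, b4⟩ | ⟨a4, b4⟩ <;> simp_all <;> linarith
  have hB : ¬ ((sgn x 0 = sgn x 1) ∧ (sgn x 1 = sgn x 3) ∧ sgn x 5 ≠ sgn x 0) := by
    rintro ⟨ha, hb, hc⟩
    rcases h0 with ⟨a0, b0⟩ | ⟨a0, b0⟩ <;> rcases h1 with ⟨a1, b1⟩ | ⟨a1, b1⟩ <;>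
      rcases h3 with ⟨a3, b3⟩ | ⟨a3, b3⟩ <;> rcases h5 with ⟨a5, b5⟩ | ⟨a5, b5⟩ <;>
      simp_all <;> linarith
  simp only [Bool.and_eq_true, Bool.not_eq_true', Bool.and_eq_false_iff, beq_eq_false_iff_ne,
    bne_eq_false_iff_eq]
  constructor
  · by_contra hcon
    push Not at hcon
    exact hA hcon
  · by_contra hcon
    push Not at hcon
    exact hB ⟨hcon.1.1, hcon.1.2, hcon.2⟩

theorem sgnC_good (C : Chamber HR) : good (sgnC C) = true := by
  obtain ⟨x, rfl⟩ := chamber_surjective C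
  rw [sgnC_chamber]
  exact good_sgn x

theorem exists_chamber (σ : Fin 6 → Bool) (h : good σ = true) : ∃ C : Chamber HR, sgnC C = σ := by
  have hs := pt_spec σ h
  have h1 : ∀ i, HR i ⬝ᵥ (fun j => ((pt σ j : ℤ) : ℝ)) =
      ((HI i 0 * pt σ 0 + HI i 1 * pt σ 1 + HI i 2 * pt σ 2 + HI i 3 * pt σ 3 : ℤ) : ℝ) := by
    intro i
    rw [dot_eq]
    push_cast
    ring
  have hx : ∀ i, HR i ⬝ᵥ (fun j => ((pt σ j : ℤ) : ℝ)) ≠ 0 := by
    intro i
    rw [h1]
    rcases hi : σ i with _ | _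
    · have := (hs i).2 hi
      exact_mod_cast this.ne
    · have := (hs i).1 hi
      exact_mod_cast this.ne'
  refine ⟨chamberOf (⟨_, hx⟩ : Complement HR), ?_⟩
  rw [sgnC_chamber]
  funext i
  rcases hi : σ i with _ | _
  · rw [sgn_eq_false, h1]
    exact_mod_cast (hs i).2 hi
  · rw [sgn_eq_true, h1]
    exact_mod_cast (hs i).1 hi

/-- The chambers correspond to the good sign vectors. -/
noncomputable def chamberEquiv : Chamber HR ≃ {σ : Fin 6 → Bool // good σ = true} :=
  Equiv.ofBijective (fun C => ⟨sgnC C, sgnC_good C⟩)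
    ⟨fun C C' h => sgnC_injective (congrArg Subtype.val h),
      fun ⟨σ, hσ⟩ => by
        obtain ⟨C, hC⟩ := exists_chamber σ hσ
        exact ⟨C, Subtype.ext hC⟩⟩

theorem sum_chambers {M : Type*} [AddCommMonoid M] (F : (Fin 6 → Bool) → M) :
    ∑ C : Chamber HR, F (sgnC C) = ∑ σ ∈ Finset.univ.filter (fun σ => good σ = true), F σ := by
  rw [Finset.sum_subtype (p := fun σ : Fin 6 → Bool => good σ = true) _ (by simp)]
  exact Equiv.sum_comp chamberEquiv (fun σ : {σ : Fin 6 → Bool // good σ = true} => F σ.1)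

/-- Hamming distance. -/
def hd (σ τ : Fin 6 → Bool) : ℕ := (Finset.univ.filter fun i => σ i ≠ τ i).card

/-- binary code of a sign vector -/
def code (σ : Fin 6 → Bool) : ℕ :=
  (σ 0).toNat + 2 * (σ 1).toNat + 4 * (σ 2).toNat + 8 * (σ 3).toNat + 16 * (σ 4).toNat +
    32 * (σ 5).toNat

/-- The class of a sign vector (six classes, with the same weight in each class). -/
def cls (σ : Fin 6 → Bool) : ℕ :=
  [0, 1, 1, 0, 2, 3, 0, 0, 1, 4, 0, 0, 3, 5, 0, 0, 0, 0, 3, 2, 0, 1, 1, 0, 0, 0, 2, 0, 1, 4, 0, 0,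
    0, 0, 4, 1, 0, 2, 0, 0, 0, 1, 1, 0, 2, 3, 0, 0, 0, 0, 5, 3, 0, 0, 4, 1, 0, 0, 3, 2, 0, 1, 1,
    0].getD (code σ) 0

/-- Coefficients of the numerators of the weights. -/
def wc (c j : ℕ) : ℤ := if j < 9 then
  (([[1, 1, 1, 2, 3, 2, 1, 1, 1], [1, 0, -1, -1, 0, -1, -1, 0, 1], [1, 1, 1, 1, 2, 1, 1, 1, 1],
    [1, 0, 0, 0, 2, 0, 0, 0, 1], [1, 1, 2, 2, 3, 2, 2, 1, 1], [1, 0, 1, 0, 2, 0, 1, 0, 1]] :
    List (List ℤ)).getD c []).getD j 0 else 0

/-- Coefficients of the common denominator of the weights. -/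
def dc (j : ℕ) : ℤ := if j < 15 then ([1, 5, 12, 19, 24, 29, 35, 38, 35, 29, 24, 19, 12, 5, 1] : List ℤ).getD j 0
  else 0

theorem weights_check : ∀ σ : Fin 6 → Bool, good σ = true → ∀ m : Fin 15,
    (∑ τ ∈ Finset.univ.filter (fun τ => good τ = true),
      (if hd σ τ ≤ m.1 then wc (cls τ) (m.1 - hd σ τ) else 0)) = dc m.1 := by
  decide +kernel

theorem total_check : ∀ m : Fin 9,
    (∑ τ ∈ Finset.univ.filter (fun τ => good τ = true), wc (cls τ) m.1) =
      ([42, 22, 16, 26, 76, 26, 16, 22, 42] : List ℤ).getD m.1 0 := by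
  decide +kernel

/-- Numerator of the weight of the class `c`. -/
noncomputable def W (c : ℕ) : ℚ[X] := ∑ j ∈ Finset.range 9, C (wc c j : ℚ) * X ^ j

/-- Common denominator of the weights. -/
noncomputable def D : ℚ[X] := ∑ j ∈ Finset.range 15, C (dc j : ℚ) * X ^ j

theorem coeff_W (c j : ℕ) : (W c).coeff j = (wc c j : ℚ) := by
  unfold W
  rw [finsetSum_coeff]
  simp only [coeff_C_mul, coeff_X_pow, mul_ite, mul_one, mul_zero]
  rw [Finset.sum_ite_eq]
  by_cases h : j < 9
  · simp [h]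
  · simp [h, wc]

theorem coeff_D (j : ℕ) : D.coeff j = (dc j : ℚ) := by
  unfold D
  rw [finsetSum_coeff]
  simp only [coeff_C_mul, coeff_X_pow, mul_ite, mul_one, mul_zero]
  rw [Finset.sum_ite_eq]
  by_cases h : j < 15
  · simp [h]
  · simp [h, dc]

theorem hd_le (σ τ : Fin 6 → Bool) : hd σ τ ≤ 6 := by
  refine (Finset.card_filter_le _ _).trans ?_
  simp

theorem weights_poly (σ : Fin 6 → Bool) (h : good σ = true) :
    ∑ τ ∈ Finset.univ.filter (fun τ => good τ = true), (X : ℚ[X]) ^ hd σ τ * W (cls τ) = D := by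
  ext m
  rw [finsetSum_coeff, coeff_D]
  simp only [coeff_X_pow_mul', coeff_W]
  by_cases hm : m < 15
  · have := weights_check σ h ⟨m, hm⟩
    simp only at this
    rw [← this]
    push_cast
    rfl
  · have h1 : dc m = 0 := by simp [dc, hm]
    rw [h1, Int.cast_zero]
    refine Finset.sum_eq_zero fun τ _ => ?_
    have h2 := hd_le σ τ
    split_ifs with h3
    · have h4 : ¬ (m - hd σ τ < 9) := by omega
      simp [wc, h4]
    · rfl

/-- Sum of the numerators of all weights. -/
noncomputable def N : ℚ[X] := ∑ τ ∈ Finset.univ.filter (fun τ => good τ = true), W (cls τ)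

theorem N_eq : N = (C 42 + C 64 * X + C 38 * X ^ 2 + C 38 * X ^ 4 + C 64 * X ^ 5 + C 42 * X ^ 6) *
    (X ^ 2 - X + 1) := by
  have h1 : N = ∑ j ∈ Finset.range 9,
      C (((∑ τ ∈ Finset.univ.filter (fun τ => good τ = true), wc (cls τ) j : ℤ)) : ℚ) * X ^ j := by
    unfold N W
    rw [Finset.sum_comm]
    refine Finset.sum_congr rfl fun j _ => ?_
    rw [← Finset.sum_mul]
    push_cast
    rw [map_sum]
  have h2 := total_check
  have e0 := h2 0
  have e1 := h2 1
  have e2 := h2 2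
  have e3 := h2 3
  have e4 := h2 4
  have e5 := h2 5
  have e6 := h2 6
  have e7 := h2 7
  have e8 := h2 8
  simp at e0 e1 e2 e3 e4 e5 e6 e7 e8
  rw [h1]
  simp only [Finset.sum_range_succ, Finset.sum_range_zero, zero_add]
  rw [e0, e1, e2, e3, e4, e5, e6, e7, e8]
  norm_num
  simp only [map_ofNat]
  ring

/-- The reduced denominator. -/
noncomputable def Den : ℚ[X] := 1 + C 6 * X + C 17 * X ^ 2 + C 30 * X ^ 3 + C 37 * X ^ 4 +
  C 36 * X ^ 5 + C 34 * X ^ 6 + C 36 * X ^ 7 + C 37 * X ^ 8 + C 30 * X ^ 9 + C 17 * X ^ 10 +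
  C 6 * X ^ 11 + X ^ 12

theorem D_eq : D = Den * (X ^ 2 - X + 1) := by
  unfold D Den
  simp only [Finset.sum_range_succ, Finset.sum_range_zero, zero_add]
  norm_num [dc]
  simp only [map_ofNat]
  ring

theorem Den_eq : Den = (X ^ 2 - X + 1) * (C 37 + C 43 * X + C 23 * X ^ 2 + C 10 * X ^ 3 +
    C 24 * X ^ 4 + C 50 * X ^ 5 + C 60 * X ^ 6 + C 46 * X ^ 7 + C 23 * X ^ 8 + C 7 * X ^ 9 +
    X ^ 10) - C 36 := by
  unfold Den
  simp only [map_ofNat]
  ring

theorem Phi6_natDegree : (X ^ 2 - X + 1 : ℚ[X]).natDegree = 2 := by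
  compute_degree!

theorem Phi6_not_dvd : ¬ (X ^ 2 - X + 1 : ℚ[X]) ∣ Den := by
  intro h
  rw [Den_eq] at h
  have h1 : (X ^ 2 - X + 1 : ℚ[X]) ∣ C 36 := (dvd_sub_right (dvd_mul_right _ _)).mp h
  have h2 := natDegree_le_of_dvd h1 (by simp)
  rw [Phi6_natDegree, natDegree_C] at h2
  omega

theorem D_ne_zero : D ≠ 0 := by
  intro h
  have h1 := coeff_D 0
  rw [h] at h1
  simp [dc] at h1

theorem mag_eq : mag HR = algebraMap ℚ[X] (RatFunc ℚ)
    (C 42 + C 64 * X + C 38 * X ^ 2 + C 38 * X ^ 4 + C 64 * X ^ 5 + C 42 * X ^ 6) /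
      algebraMap ℚ[X] (RatFunc ℚ) Den := by
  have hD : algebraMap ℚ[X] (RatFunc ℚ) D ≠ 0 := by
    rw [Ne, map_eq_zero_iff _ (RatFunc.algebraMap_injective ℚ)]
    exact D_ne_zero
  have h1 : mag HR = ∑ C : Chamber HR, (fun τ => algebraMap ℚ[X] (RatFunc ℚ) (W (cls τ)) /
      algebraMap ℚ[X] (RatFunc ℚ) D) (sgnC C) := by
    apply mag_eq_sum
    intro C
    have h2 : ∀ C' : Chamber HR, RatFunc.X ^ sepNumber C C' *
        (fun τ => algebraMap ℚ[X] (RatFunc ℚ) (W (cls τ)) / algebraMap ℚ[X] (RatFunc ℚ) D)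
          (sgnC C') = (fun τ => RatFunc.X ^ hd (sgnC C) τ *
        (algebraMap ℚ[X] (RatFunc ℚ) (W (cls τ)) / algebraMap ℚ[X] (RatFunc ℚ) D)) (sgnC C') := by
      intro C'
      rw [sepNumber_eq]
      rfl
    rw [Finset.sum_congr rfl fun C' _ => h2 C']
    refine (sum_chambers fun τ => RatFunc.X ^ hd (sgnC C) τ *
        (algebraMap ℚ[X] (RatFunc ℚ) (W (cls τ)) / algebraMap ℚ[X] (RatFunc ℚ) D)).trans ?_
    have h3 := weights_poly (sgnC C) (sgnC_good C)
    have h4 := congrArg (algebraMap ℚ[X] (RatFunc ℚ)) h3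
    rw [map_sum] at h4
    simp only [map_mul, map_pow, RatFunc.algebraMap_X] at h4
    simp only [← mul_div_assoc]
    rw [← Finset.sum_div, h4, div_self hD]
  rw [h1]
  refine (sum_chambers fun τ => algebraMap ℚ[X] (RatFunc ℚ) (W (cls τ)) /
      algebraMap ℚ[X] (RatFunc ℚ) D).trans ?_
  rw [← Finset.sum_div, ← map_sum]
  have h5 : ∑ τ ∈ Finset.univ.filter (fun τ => good τ = true), W (cls τ) = N := rfl
  rw [h5, N_eq, D_eq, map_mul, map_mul]
  refine mul_div_mul_right _ _ ?_
  rw [D_eq, map_mul] at hD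
  exact right_ne_zero_of_mul hD

theorem not_dvd_denom : ¬ cyclotomic 6 ℚ ∣ (mag HR).denom := by
  rw [mag_eq, cyclotomic_six]
  intro h
  exact Phi6_not_dvd (h.trans (RatFunc.denom_div_dvd _ _))

/-! ### The tope graph is not vertex-transitive -/

theorem card_neighborSet (C : Chamber HR) : Nat.card ((topeGraph HR).neighborSet C) =
    (Finset.univ.filter fun τ => good τ = true ∧ hd (sgnC C) τ = 1).card := by
  rw [← Fintype.card_subtype, ← Nat.card_eq_fintype_card]
  refine Nat.card_congr (Equiv.ofBijective (fun x => ⟨sgnC x.1, sgnC_good _, ?_⟩) ⟨?_, ?_⟩)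
  · have h := x.2
    rw [SimpleGraph.mem_neighborSet] at h
    have h2 := h.2
    rw [sepNumber_eq] at h2
    exact h2
  · intro x y hxy
    exact Subtype.ext (sgnC_injective (congrArg Subtype.val hxy))
  · rintro ⟨τ, hτ, hd1⟩
    obtain ⟨C', rfl⟩ := exists_chamber τ hτ
    refine ⟨⟨C', ?_⟩, rfl⟩
    rw [SimpleGraph.mem_neighborSet]
    refine ⟨?_, ?_⟩
    · rintro rfl
      simp [hd] at hd1
    · rw [sepNumber_eq]
      exact hd1

theorem not_vertexTransitive : ¬ VertexTransitive (topeGraph HR) := by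
  intro h
  obtain ⟨C0, h0⟩ := exists_chamber (fun _ => true) (by decide)
  obtain ⟨C1, h1⟩ := exists_chamber (fun i => decide (i ≠ 3)) (by decide)
  obtain ⟨φ, hφ⟩ := h C0 C1
  have e := Nat.card_congr (φ.mapNeighborSet C0)
  rw [hφ, card_neighborSet, card_neighborSet, h0, h1] at e
  revert e
  decide +kernel

/-! ### Rank, irreducibility -/

theorem center_eq_bot : center HR = ⊥ := by
  rw [Submodule.eq_bot_iff]
  intro x hx
  have h : ∀ i, HR i ⬝ᵥ x = 0 := hx
  have h0 := h 0
  have h1 := h 1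
  have h2 := h 2
  have h3 := h 3
  simp [dot_eq, HI] at h0 h1 h2 h3
  funext j
  fin_cases j
  · exact h0
  · exact h1
  · exact h2
  · exact h3

theorem rank_eq : rank HR = 4 := by
  unfold rank
  rw [(Submodule.quotEquivOfEqBot _ center_eq_bot).finrank_eq]
  simp

/-- The integers `-1, 0, 1`. -/
def g3 (k : Fin 3) : ℤ := (k.val : ℤ) - 1

theorem dist_check : ∀ i j : Fin 6, i ≠ j → ∃ v : Fin 4 → Fin 3,
    (HI i 0 * g3 (v 0) + HI i 1 * g3 (v 1) + HI i 2 * g3 (v 2) + HI i 3 * g3 (v 3) = 0) ∧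
    (HI j 0 * g3 (v 0) + HI j 1 * g3 (v 1) + HI j 2 * g3 (v 2) + HI j 3 * g3 (v 3) ≠ 0) := by
  decide +kernel

theorem HI_ne_zero : ∀ i : Fin 6, ∃ j : Fin 4, HI i j ≠ 0 := by decide

theorem isArrangement : IsArrangement HR := by
  constructor
  · intro i hi
    obtain ⟨j, hj⟩ := HI_ne_zero i
    have h : (HI i j : ℝ) = 0 := congrFun hi j
    exact hj (by exact_mod_cast h)
  · intro i j hij heq
    obtain ⟨v, h1, h2⟩ := dist_check i j hij
    have hx1 : (fun k => (g3 (v k) : ℝ)) ∈ {x : Fin 4 → ℝ | HR i ⬝ᵥ x = 0} := by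
      rw [Set.mem_ofPred_eq, dot_eq]
      exact_mod_cast h1
    rw [heq, Set.mem_ofPred_eq, dot_eq] at hx1
    exact h2 (by exact_mod_cast hx1)

theorem irreducible_HR : Irreducible HR := by
  -- the two circuits
  have r1 : HR 4 = HR 1 + HR 2 := by
    funext j
    fin_cases j <;> simp [HR, HI]
  have r2 : HR 5 = HR 0 + HR 1 + HR 3 := by
    funext j
    fin_cases j <;> simp [HR, HI]
  have key : ∀ S : Set (Fin 6), (1 : Fin 6) ∈ S →
      Submodule.span ℝ (HR '' S) ⊓ Submodule.span ℝ (HR '' Sᶜ) = ⊥ → Sᶜ = ∅ := by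
    intro S h1 hbot
    have hv : ∀ v, v ∈ Submodule.span ℝ (HR '' S) → v ∈ Submodule.span ℝ (HR '' Sᶜ) → v = 0 := by
      intro v ha hb
      have : v ∈ (⊥ : Submodule ℝ (Fin 4 → ℝ)) := by
        rw [← hbot]
        exact ⟨ha, hb⟩
      exact (Submodule.mem_bot ℝ).mp this
    have hS : ∀ i, i ∈ S → HR i ∈ Submodule.span ℝ (HR '' S) := fun i hi =>
      Submodule.subset_span ⟨i, hi, rfl⟩
    have hSc : ∀ i, i ∉ S → HR i ∈ Submodule.span ℝ (HR '' Sᶜ) := fun i hi =>
      Submodule.subset_span ⟨i, hi, rfl⟩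
    have hne : ∀ (v : Fin 4 → ℝ) (j : Fin 4), v j ≠ 0 → v ≠ 0 := by
      rintro v j hj rfl
      exact hj rfl
    have m24 : (2 : Fin 6) ∈ S ∧ (4 : Fin 6) ∈ S := by
      by_cases h2 : (2 : Fin 6) ∈ S <;> by_cases h4 : (4 : Fin 6) ∈ S
      · exact ⟨h2, h4⟩
      · exfalso
        refine hne (HR 4) 1 (by simp [HR, HI]) (hv _ ?_ (hSc 4 h4))
        rw [r1]
        exact add_mem (hS 1 h1) (hS 2 h2)
      · exfalso
        refine hne (HR 2) 2 (by simp [HR, HI]) (hv _ ?_ (hSc 2 h2))
        have : HR 2 = HR 4 - HR 1 := by rw [r1]; abel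
        rw [this]
        exact sub_mem (hS 4 h4) (hS 1 h1)
      · exfalso
        refine hne (HR 1) 1 (by simp [HR, HI]) (hv _ (hS 1 h1) ?_)
        have : HR 1 = HR 4 - HR 2 := by rw [r1]; abel
        rw [this]
        exact sub_mem (hSc 4 h4) (hSc 2 h2)
    have m035 : (0 : Fin 6) ∈ S ∧ (3 : Fin 6) ∈ S ∧ (5 : Fin 6) ∈ S := by
      by_cases h0 : (0 : Fin 6) ∈ S <;> by_cases h3 : (3 : Fin 6) ∈ S <;>
        by_cases h5 : (5 : Fin 6) ∈ S
      · exact ⟨h0, h3, h5⟩
      · exfalso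
        refine hne (HR 5) 1 (by simp [HR, HI]) (hv _ ?_ (hSc 5 h5))
        rw [r2]
        exact add_mem (add_mem (hS 0 h0) (hS 1 h1)) (hS 3 h3)
      · exfalso
        refine hne (HR 3) 3 (by simp [HR, HI]) (hv _ ?_ (hSc 3 h3))
        have : HR 3 = HR 5 - HR 0 - HR 1 := by rw [r2]; abel
        rw [this]
        exact sub_mem (sub_mem (hS 5 h5) (hS 0 h0)) (hS 1 h1)
      · exfalso
        refine hne (HR 0 + HR 1) 1 (by simp [HR, HI]) (hv _ (add_mem (hS 0 h0) (hS 1 h1)) ?_)
        have : HR 0 + HR 1 = HR 5 - HR 3 := by rw [r2]; abel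
        rw [this]
        exact sub_mem (hSc 5 h5) (hSc 3 h3)
      · exfalso
        refine hne (HR 0) 0 (by simp [HR, HI]) (hv _ ?_ (hSc 0 h0))
        have : HR 0 = HR 5 - HR 3 - HR 1 := by rw [r2]; abel
        rw [this]
        exact sub_mem (sub_mem (hS 5 h5) (hS 3 h3)) (hS 1 h1)
      · exfalso
        refine hne (HR 1 + HR 3) 1 (by simp [HR, HI]) (hv _ (add_mem (hS 1 h1) (hS 3 h3)) ?_)
        have : HR 1 + HR 3 = HR 5 - HR 0 := by rw [r2]; abel
        rw [this]
        exact sub_mem (hSc 5 h5) (hSc 0 h0)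
      · exfalso
        refine hne (HR 5 - HR 1) 0 (by simp [HR, HI]) (hv _ (sub_mem (hS 5 h5) (hS 1 h1)) ?_)
        have : HR 5 - HR 1 = HR 0 + HR 3 := by rw [r2]; abel
        rw [this]
        exact add_mem (hSc 0 h0) (hSc 3 h3)
      · exfalso
        refine hne (HR 1) 1 (by simp [HR, HI]) (hv _ (hS 1 h1) ?_)
        have : HR 1 = HR 5 - HR 0 - HR 3 := by rw [r2]; abel
        rw [this]
        exact sub_mem (sub_mem (hSc 5 h5) (hSc 0 h0)) (hSc 3 h3)
    rw [Set.compl_empty_iff, Set.eq_univ_iff_forall]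
    intro i
    fin_cases i
    · exact m035.1
    · exact h1
    · exact m24.1
    · exact m035.2.1
    · exact m24.2
    · exact m035.2.2
  intro S hS hSc hbot
  by_cases h1 : (1 : Fin 6) ∈ S
  · exact hSc.ne_empty (key S h1 hbot)
  · refine hS.ne_empty ?_
    have := key Sᶜ h1 (by rw [compl_compl, inf_comm]; exact hbot)
    rwa [compl_compl] at this

/-- **There is an irreducible arrangement of rank `4` whose tope graph is not vertex-transitive and
for which `Φ_n` does not divide the denominator of the magnitude (`n = 6` hyperplanes). In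
particular the equivalence of Q1 is false.** -/
theorem result :
    (∃ (d n : ℕ) (H : Fin n → Fin d → ℝ), IsArrangement H ∧ Irreducible H ∧ rank H = 4 ∧
      ¬ VertexTransitive (topeGraph H) ∧ ¬ cyclotomic n ℚ ∣ (mag H).denom) ∧
    ¬ ∀ (d n : ℕ) (H : Fin n → Fin d → ℝ), IsArrangement H → Even (rank H) → 4 ≤ rank H →
      (¬ VertexTransitive (topeGraph H) ↔ cyclotomic n ℚ ∣ (mag H).denom) := by
  refine ⟨⟨4, 6, HR, isArrangement, irreducible_HR, rank_eq, not_vertexTransitive, not_dvd_denom⟩,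
    fun h => ?_⟩
  have h1 := h 4 6 HR isArrangement (by rw [rank_eq]; decide) (by rw [rank_eq])
  exact not_dvd_denom (h1.mp not_vertexTransitive)

end Pool.Agent.Results.MP_04f01b_co.HouseArrangement
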